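import Pool.Agent.Lib.MP_751612_pr.Final

/-!
# MP_751612_pr, Q1: the conjectured Wasserstein rate holds

Instantaneous linear preferential attachment with `m ≥ 2` edges per new vertex and `δ > 0`.
For every `m ≥ 2` and `δ > 0` the normalised triangle count `(T_n - E T_n)/√Var(T_n)` is within
Wasserstein distance `C/√(log n)` of the standard normal law, for all large `n`.

Definitions (file `Pool/Agent/Lib/MP_751612_pr/Defs.lean`): `Hist`, `graph`, `prob`, `stepLaw`,
`histLaw` describe the model, `triangles` is the triangle count with multiplicity, `triLaw m hδ k`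
is the law of `T_n` for `n = k + 2` vertices, `normLaw m hδ k` is the law of
`(T_n - E T_n)/√Var(T_n)`, and `dW` is the Wasserstein distance.

Proof idea: `T_n` is compared with a Poisson variable with the same mean by telescoping over the
steps with test functions transported by the Poisson semigroup; the total error is a constant times
the Lipschitz constant because the conditional mean number of new triangles at step `n` differs
from its mean by `O(n^(-1-η))` in mean square.
-/

open MeasureTheory ProbabilityTheory MP751612

namespace Pool.Agent.Results.MP_751612_pr.WassersteinRate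

/-- Q1 holds: for every `m ≥ 2` and `δ > 0` there are `C` and `n₀` with
`d_W((T_n - E T_n)/√Var(T_n), N(0,1)) ≤ C/√(log n)` for all `n ≥ n₀`. -/
theorem result : ∀ m : ℕ, 2 ≤ m → ∀ (δ : ℝ) (hδ : 0 < δ), ∃ (C : ℝ) (n₀ : ℕ), 2 ≤ n₀ ∧
    ∀ n : ℕ, n₀ ≤ n →
      dW (normLaw m hδ (n - 2)) (gaussianReal 0 1) ≤ ENNReal.ofReal (C / √(Real.log n)) :=
  fun _ hm _ hδ => wasserstein_rate hm hδ

end Pool.Agent.Results.MP_751612_pr.WassersteinRate
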